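import Pool.Agent.H984R4.NP.Det

/-!
Chains of blocks.
-/

set_option autoImplicit false

namespace Pool.Agent.Y884.ME

open H974 Finset H342P H984P H984N

/-- neighbours (and the point itself) -/
noncomputable def nb9 (p : Vtx) : Finset Vtx :=
  Finset.Icc (p.1 - 1) (p.1 + 1) ×ˢ Finset.Icc (p.2 - 1) (p.2 + 1)

theorem mem_nb9 {p q : Vtx} : q ∈ nb9 p ↔ sd p q ≤ 1 := by
  unfold nb9
  rw [mem_product, mem_Icc, mem_Icc, det_sd_eq]
  omega

theorem card_nb9 (p : Vtx) : (nb9 p).card = 9 := by
  unfold nb9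
  rw [card_product, Int.card_Icc, Int.card_Icc]
  have e1 : (p.1 + 1 + 1 - (p.1 - 1)).toNat = 3 := by omega
  have e2 : (p.2 + 1 + 1 - (p.2 - 1)).toNat = 3 := by omega
  rw [e1, e2]

open Classical in
/-- the sets of vertices of the chains -/
noncomputable def AS : ℕ → Vtx → Finset (Finset Vtx)
  | 0, p => {{p}}
  | k + 1, p => (nb9 p).biUnion (fun q => (AS k q).image (insert p))

theorem AS_card (k : ℕ) : ∀ p, (AS k p).card ≤ 9 ^ k := by
  classical
  induction k with
  | zero => intro p; simp [AS]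
  | succ k ih =>
    intro p
    unfold AS
    refine card_biUnion_le.trans ?_
    refine (sum_le_card_nsmul _ _ (9 ^ k) fun q _ => card_image_le.trans (ih q)).trans ?_
    rw [card_nb9, smul_eq_mul, pow_succ]
    omega

theorem AS_near (k : ℕ) : ∀ p, ∀ Q ∈ AS k p, ∀ q ∈ Q, sd p q ≤ k := by
  classical
  induction k with
  | zero =>
    intro p Q hQ q hq
    unfold AS at hQ
    rw [mem_singleton] at hQ
    rw [hQ, mem_singleton] at hq
    rw [hq, det_sd_self]
    simp
  | succ k ih =>
    intro p Q hQ q hq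
    unfold AS at hQ
    rw [mem_biUnion] at hQ
    obtain ⟨q', hq', hQ⟩ := hQ
    rw [mem_image] at hQ
    obtain ⟨Q', hQ', rfl⟩ := hQ
    rw [mem_insert] at hq
    rcases hq with rfl | hq
    · rw [det_sd_self]; positivity
    · have h1 := ih q' Q' hQ' q hq
      rw [mem_nb9] at hq'
      have h2 := det_sd_tri p q' q
      push_cast
      omega

/-- A sequence of neighbouring blocks contains a chain of distinct blocks. -/
theorem chain {β : ℕ → Vtx} (hβ : ∀ r, sd (β r) (β (r + 1)) ≤ 1) (n : ℕ) (k : ℕ) :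
    ∀ s, s ≤ n → (k : ℤ) ≤ sd (β s) (β n) → ∃ Q ∈ AS k (β s), Q.card = k + 1 ∧
      ∀ q ∈ Q, ∃ τ, s ≤ τ ∧ τ ≤ n ∧ β τ = q := by
  classical
  induction k with
  | zero =>
    intro s hs _
    refine ⟨{β s}, by simp [AS], by simp, fun q hq => ?_⟩
    rw [mem_singleton] at hq
    exact ⟨s, le_rfl, hs, hq.symm⟩
  | succ k ih =>
    intro s hs hk
    obtain ⟨r, hr⟩ : ∃ r, r = Nat.findGreatest (fun r => β r = β s) n := ⟨_, rfl⟩
    have h1 : β r = β s := by
      rw [hr]; exact Nat.findGreatest_spec (P := fun r => β r = β s) hs rfl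
    have h2 : s ≤ r := by rw [hr]; exact Nat.le_findGreatest hs rfl
    have h3 : r ≤ n := by rw [hr]; exact Nat.findGreatest_le n
    have h4 : ∀ τ, r < τ → τ ≤ n → β τ ≠ β s := by
      intro τ hτ hτn
      rw [hr] at hτ
      exact Nat.findGreatest_is_greatest hτ hτn
    have h5 : r ≠ n := by
      rintro rfl
      rw [h1, det_sd_self] at hk
      push_cast at hk
      omega
    have h6 := det_sd_tri (β s) (β (r + 1)) (β n)
    have h7 := hβ r
    rw [h1] at h7
    push_cast at hk
    obtain ⟨Q, hQ, hc, hτ⟩ := ih (r + 1) (by omega) (by omega)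
    have h8 : β s ∉ Q := by
      intro hin
      obtain ⟨τ, t1, t2, t3⟩ := hτ _ hin
      exact h4 τ (by omega) t2 t3
    refine ⟨insert (β s) Q, ?_, ?_, ?_⟩
    · unfold AS
      rw [mem_biUnion]
      refine ⟨β (r + 1), mem_nb9.mpr h7, ?_⟩
      rw [mem_image]
      exact ⟨Q, hQ, rfl⟩
    · rw [card_insert_of_notMem h8, hc]
    · intro q hq
      rw [mem_insert] at hq
      rcases hq with rfl | hq
      · exact ⟨s, le_rfl, hs, rfl⟩
      · obtain ⟨τ, t1, t2, t3⟩ := hτ q hq
        exact ⟨τ, by omega, t2, t3⟩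

/-- residue class -/
def cls (q : Vtx) : ℤ × ℤ := (q.1 % 7, q.2 % 7)

open Classical in
/-- A large part of a set is in one residue class. -/
theorem pigeon {Q : Finset Vtx} {k : ℕ} (hk : k ≤ Q.card) :
    ∃ c, k ≤ 49 * (Q.filter (fun q => cls q = c)).card := by
  obtain ⟨R, hR⟩ : ∃ R : Finset (ℤ × ℤ), R = Finset.Ico (0 : ℤ) 7 ×ˢ Finset.Ico (0 : ℤ) 7 := ⟨_, rfl⟩
  have hmap : ∀ q ∈ Q, cls q ∈ R := by
    intro q _
    rw [hR, mem_product, mem_Ico, mem_Ico]
    unfold cls
    simp only
    omega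
  have hRc : R.card = 49 := by
    rw [hR, card_product, Int.card_Ico]
    rfl
  have h1 := card_eq_sum_card_fiberwise hmap
  by_contra hcon
  push Not at hcon
  have h2 : 49 * ∑ c ∈ R, (Q.filter (fun q => cls q = c)).card ≤ ∑ c ∈ R, (k - 1) := by
    rw [mul_sum]
    refine sum_le_sum fun c _ => ?_
    have := hcon c
    omega
  rw [sum_const, hRc, smul_eq_mul, ← h1] at h2
  have h3 := hcon (0, 0)
  omega

/-- blocks of one class are far from each other -/
theorem cls_far {q r : Vtx} (h : cls q = cls r) (hne : q ≠ r) : 7 ≤ sd q r := by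
  unfold cls at h
  rw [Prod.mk.injEq] at h
  obtain ⟨x, y⟩ := q
  obtain ⟨x', y'⟩ := r
  simp only at h
  rw [det_sd_eq]
  simp only
  have : x ≠ x' ∨ y ≠ y' := by
    by_contra hcon
    push Not at hcon
    exact hne (by rw [hcon.1, hcon.2])
  omega

open Classical in
/-- Counting: the times near different blocks of one class are different. -/
theorem count_times {β : ℕ → Vtx} {n M : ℕ} {G : Finset Vtx} (hcl : ∀ q ∈ G, ∀ r ∈ G, cls q = cls r)
    (hT : ∀ q ∈ G, M ≤ ((range (n + 1)).filter (fun t => sd (β t) q ≤ 1)).card) :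
    G.card * M ≤ n + 1 := by
  have h1 : ∑ q ∈ G, ((range (n + 1)).filter (fun t => sd (β t) q ≤ 1)).card =
      (G.biUnion (fun q => (range (n + 1)).filter (fun t => sd (β t) q ≤ 1))).card := by
    symm
    refine card_biUnion fun q hq r hr hqr => ?_
    show Disjoint _ _
    rw [disjoint_left]
    intro t h1 h2
    rw [mem_filter] at h1 h2
    have h3 := cls_far (hcl q hq r hr) hqr
    have h4 := det_sd_tri q (β t) r
    have h5 := det_sd_comm q (β t)
    omega
  have h2 : (G.biUnion (fun q => (range (n + 1)).filter (fun t => sd (β t) q ≤ 1))).card ≤ n + 1 := by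
    have : G.biUnion (fun q => (range (n + 1)).filter (fun t => sd (β t) q ≤ 1)) ⊆ range (n + 1) := by
      intro t ht
      rw [mem_biUnion] at ht
      obtain ⟨q, _, h⟩ := ht
      exact (mem_filter.mp h).1
    refine (card_le_card this).trans ?_
    rw [card_range]
  have h3 : G.card * M ≤ ∑ q ∈ G, ((range (n + 1)).filter (fun t => sd (β t) q ≤ 1)).card := by
    rw [← smul_eq_mul]
    exact card_nsmul_le_sum _ _ _ hT
  omega

end Pool.Agent.Y884.ME
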