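import Pool.Agent.Y985.ME.Stm
import Pool.Agent.Y884.ME.Chain
import Pool.Agent.TH992.T.Chern

/-!
Lower tail of the duration of the pieces of the exploration path: union bound over chains of blocks.
(Job ME-FAST of the project Y985-ME of helper985; adaptation of `TH992.L.ChainPr` and
`TH992.L.UpTail` to the rectangle.)
-/

set_option autoImplicit false

namespace Pool.Agent.Y884.ME

open H974 Finset H342P H984P H984N
open Pool.Agent.Y985.ME

theorem half_ok : Ok (fun _ : Edg => (1/2:ℝ)) := fun _ => ⟨by norm_num, by norm_num⟩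

theorem blk_step {W : ℤ} (hW : 1 ≤ W) {u v : Vtx} (h : sd u v ≤ W) : sd (blk W u) (blk W v) ≤ 1 := by
  have a1 : W * (u.1 / W) ≤ u.1 := Int.mul_ediv_self_le (by omega)
  have a2 : u.1 < W * (u.1 / W) + W := Int.lt_mul_ediv_self_add (by omega)
  have a3 : W * (v.1 / W) ≤ v.1 := Int.mul_ediv_self_le (by omega)
  have a4 : v.1 < W * (v.1 / W) + W := Int.lt_mul_ediv_self_add (by omega)
  have b1 : W * (u.2 / W) ≤ u.2 := Int.mul_ediv_self_le (by omega)
  have b2 : u.2 < W * (u.2 / W) + W := Int.lt_mul_ediv_self_add (by omega)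
  have b3 : W * (v.2 / W) ≤ v.2 := Int.mul_ediv_self_le (by omega)
  have b4 : v.2 < W * (v.2 / W) + W := Int.lt_mul_ediv_self_add (by omega)
  rw [det_sd_eq] at h ⊢
  unfold blk
  simp only
  have key : ∀ s t : ℤ, W * s < W * t + 2 * W → s - t ≤ 1 := by
    intro s t hst
    by_contra hcon
    push Not at hcon
    have : W * (t + 2) ≤ W * s := mul_le_mul_of_nonneg_left (by omega) (by omega)
    have e : W * (t + 2) = W * t + 2 * W := by ring
    omega
  have c1 := key (u.1 / W) (v.1 / W) (by omega)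
  have c2 := key (v.1 / W) (u.1 / W) (by omega)
  have c3 := key (u.2 / W) (v.2 / W) (by omega)
  have c4 := key (v.2 / W) (u.2 / W) (by omega)
  omega

theorem blk_far {W : ℤ} (hW : 1 ≤ W) {u v : Vtx} {k : ℕ} (h : k * W ≤ sd u v) :
    (k : ℤ) ≤ sd (blk W u) (blk W v) := by
  have key : ∀ x y : ℤ, y + k * W ≤ x → (k : ℤ) ≤ x / W - y / W := by
    intro x y hxy
    have h1 : (y + k * W) / W ≤ x / W := Int.ediv_le_ediv (by omega) hxy
    rw [Int.add_mul_ediv_right _ _ (by omega)] at h1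
    omega
  rw [det_sd_eq] at h ⊢
  unfold blk
  simp only
  have hor : v.1 + k * W ≤ u.1 ∨ u.1 + k * W ≤ v.1 ∨ v.2 + k * W ≤ u.2 ∨ u.2 + k * W ≤ v.2 := by
    omega
  rcases hor with h1 | h1 | h1 | h1
  · have := key _ _ h1; omega
  · have := key _ _ h1; omega
  · have := key _ _ h1; omega
  · have := key _ _ h1; omega

theorem blk_mem {D : Dm} {W : ℤ} (hW : 1 ≤ W) {v : Vtx} (h : inR D.l D.r 0 D.h v) :
    blk W v ∈ Bks D W := by
  unfold inR at h
  unfold Bks blk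
  rw [mem_product, mem_Icc, mem_Icc]
  refine ⟨⟨Int.ediv_le_ediv (by omega) (by omega), Int.ediv_le_ediv (by omega) (by omega)⟩,
    Int.ediv_nonneg (by omega) (by omega), Int.ediv_le_ediv (by omega) (by omega)⟩

open Classical in
/-- The path spends a long time near a block which is visited and not bad. -/
theorem good_time {D : Dm} {W : ℤ} (hW : 1 ≤ W) {F : Finset Edg} {q : Vtx} {M : ℕ}
    (hgood : ∀ k l : ℕ, k ≤ l → l ≤ D.len F →
      (∀ t, k ≤ t → t ≤ l → sd (blk W (D.walk F t).1) q ≤ 1) →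
      W ≤ sd (D.walk F k).1 (D.walk F l).1 → M ≤ l - k)
    {k0 l0 : ℕ} (h0 : k0 ≤ l0) (hl : l0 ≤ D.len F)
    (hd : 2 * W ≤ sd (D.walk F k0).1 (D.walk F l0).1) {τ : ℕ} (hτ : τ ≤ l0 - k0)
    (hq : blk W (D.walk F (k0 + τ)).1 = q) :
    M ≤ ((range (l0 - k0 + 1)).filter
      (fun t => sd (blk W (D.walk F (k0 + t)).1) q ≤ 1)).card := by
  obtain ⟨x, hx⟩ : ∃ x : ℕ → Vtx, x = fun t => (D.walk F (k0 + t)).1 := ⟨_, rfl⟩
  have hxs : ∀ s, sd (x s) (x (s + 1)) ≤ 1 := by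
    intro s
    rw [hx]
    exact walk_step D F (k0 + s)
  have hx0 : (D.walk F k0).1 = x 0 := by rw [hx]; rfl
  have hxN : (D.walk F l0).1 = x (l0 - k0) := by
    rw [hx]
    simp only
    rw [Nat.add_sub_cancel' h0]
  have hxq : blk W (x τ) = q := by rw [hx]; exact hq
  rw [hx0, hxN] at hd
  -- the interval
  have main : ∀ s e : ℕ, s ≤ e → e ≤ l0 - k0 → W ≤ sd (x s) (x e) →
      (∀ t, s ≤ t → t ≤ e → sd (x τ) (x t) ≤ W) →
      M ≤ ((range (l0 - k0 + 1)).filter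
        (fun t => sd (blk W (D.walk F (k0 + t)).1) q ≤ 1)).card := by
    intro s e hse heN hse2 hnear
    have hb : ∀ t, s ≤ t → t ≤ e → sd (blk W (x t)) q ≤ 1 := by
      intro t t1 t2
      rw [← hxq, det_sd_comm]
      exact blk_step hW (hnear t t1 t2)
    have h5 : M ≤ (k0 + e) - (k0 + s) := by
      refine hgood (k0 + s) (k0 + e) (by omega) (by omega) (fun t t1 t2 => ?_) ?_
      · have h6 := hb (t - k0) (by omega) (by omega)
        rw [hx] at h6
        simp only at h6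
        rwa [Nat.add_sub_cancel' (by omega)] at h6
      · rw [hx] at hse2
        exact hse2
    have h6 : Finset.Icc s e ⊆ (range (l0 - k0 + 1)).filter
        (fun t => sd (blk W (D.walk F (k0 + t)).1) q ≤ 1) := by
      intro t ht
      rw [mem_Icc] at ht
      rw [mem_filter, mem_range]
      refine ⟨by omega, ?_⟩
      have h7 := hb t ht.1 ht.2
      rw [hx] at h7
      exact h7
    have h7 := card_le_card h6
    rw [Nat.card_Icc] at h7
    omega
  have htri := det_sd_tri (x 0) (x τ) (x (l0 - k0))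
  have hcm := det_sd_comm (x 0) (x τ)
  by_cases hf : W ≤ sd (x τ) (x (l0 - k0))
  · obtain ⟨i, e1, e2, e3, e4⟩ := det_first x hxs hτ hf
    refine main τ i e1 e2 e3 (fun t t1 t2 => ?_)
    have := e4 t t1 t2
    omega
  · have hf' : W ≤ sd (x τ) (x 0) := by omega
    obtain ⟨i, e1, e2, e3, e4⟩ := det_last x hxs (Nat.zero_le τ) hf'
    refine main i τ e2 hτ (by rw [det_sd_comm]; exact e3) (fun t t1 t2 => ?_)
    have := e4 t t1 t2
    omega

open Classical in
/-- If the path is fast then many blocks of a chain are bad. -/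
theorem chain_sub {D : Dm} (hD : D.Ok) {W : ℤ} (hW : 1 ≤ W) {F : Finset Edg}
    (hF : F ⊆ D.edges) {Bd : Vtx → Finset Edg → Prop} {M : ℕ}
    (hgood : ∀ q, ¬ Bd q F → ∀ k l : ℕ, k ≤ l → l ≤ D.len F →
      (∀ t, k ≤ t → t ≤ l → sd (blk W (D.walk F t).1) q ≤ 1) →
      W ≤ sd (D.walk F k).1 (D.walk F l).1 → M ≤ l - k)
    {k : ℕ} (hk : 2 ≤ k) {k0 l0 : ℕ} (h0 : k0 ≤ l0) (hl : l0 ≤ D.len F)
    (hd : k * W ≤ sd (D.walk F k0).1 (D.walk F l0).1)
    (hM : 98 * (l0 - k0 + 1) < (k + 1) * M) :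
    ∃ b ∈ Bks D W, ∃ Q ∈ AS k b, Q.card = k + 1 ∧ ∃ B ∈ Q.powerset,
      (B ⊆ Bks D W ∧ (∀ q ∈ B, ∀ r ∈ B, cls q = cls r) ∧ k + 1 ≤ 98 * B.card) ∧
      ∀ q ∈ B, Bd q F := by
  have hβ : ∀ r, sd (blk W (D.walk F (k0 + r)).1) (blk W (D.walk F (k0 + (r + 1))).1) ≤ 1 :=
    fun r => blk_step hW ((walk_step D F (k0 + r)).trans hW)
  have hxN : (D.walk F l0).1 = (D.walk F (k0 + (l0 - k0))).1 := by
    rw [Nat.add_sub_cancel' h0]
  have hd2 : 2 * W ≤ sd (D.walk F k0).1 (D.walk F l0).1 := by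
    have : (2 : ℤ) * W ≤ k * W := mul_le_mul_of_nonneg_right (by exact_mod_cast hk) (by omega)
    omega
  obtain ⟨Q, hQ, hQc, hQv⟩ := chain (β := fun r => blk W (D.walk F (k0 + r)).1) hβ (l0 - k0) k 0
    (Nat.zero_le _) (by
      have h1 := blk_far hW hd
      rw [hxN] at h1
      exact h1)
  have hin : ∀ q ∈ Q, q ∈ Bks D W := by
    intro q hq
    obtain ⟨τ, -, -, h1⟩ := hQv q hq
    rw [← h1]
    exact blk_mem hW (walk_in hD hF _)
  refine ⟨blk W (D.walk F (k0 + 0)).1, blk_mem hW (walk_in hD hF _), Q, hQ, hQc, ?_⟩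
  obtain ⟨c, hc⟩ := pigeon (Q := Q) (k := k + 1) hQc.ge
  obtain ⟨Qc, hQcd⟩ : ∃ Qc, Qc = Q.filter (fun q => cls q = c) := ⟨_, rfl⟩
  have hc' : k + 1 ≤ 49 * Qc.card := by rw [hQcd]; exact hc
  have hcl : ∀ q ∈ Qc, cls q = c := by
    intro q hq
    rw [hQcd, mem_filter] at hq
    exact hq.2
  have hsub : Qc ⊆ Q := by rw [hQcd]; exact filter_subset _ _
  refine ⟨Qc.filter (fun q => Bd q F), ?_, ⟨?_, ?_, ?_⟩, ?_⟩
  · rw [mem_powerset]
    exact (filter_subset _ _).trans hsub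
  · intro q hq
    rw [mem_filter] at hq
    exact hin q (hsub hq.1)
  · intro q hq r hr
    rw [mem_filter] at hq hr
    rw [hcl q hq.1, hcl r hr.1]
  · have hsplit := card_filter_add_card_filter_not (s := Qc) (fun q => Bd q F)
    have hct := count_times (β := fun r => blk W (D.walk F (k0 + r)).1) (n := l0 - k0) (M := M)
      (G := Qc.filter (fun q => ¬ Bd q F)) (by
        intro q hq r hr
        rw [mem_filter] at hq hr
        rw [hcl q hq.1, hcl r hr.1]) (by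
        intro q hq
        rw [mem_filter] at hq
        obtain ⟨τ, -, hτ, hτq⟩ := hQv q (hsub hq.1)
        exact good_time hW (hgood q hq.2) h0 hl hd2 hτ hτq)
    by_contra hcon
    push Not at hcon
    set g := (Qc.filter (fun q => ¬ Bd q F)).card with hg
    set b := (Qc.filter (fun q => Bd q F)).card with hb
    have h1 : k + 1 ≤ 98 * g := by omega
    have h2 : (k + 1) * M ≤ 98 * g * M := Nat.mul_le_mul_right M h1
    have h3 : 98 * g * M = 98 * (g * M) := by ring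
    omega
  · intro q hq
    rw [mem_filter] at hq
    exact hq.2

theorem ends_of_RE {a b c d : ℤ} {e : Edg} (h : e ∈ RE a b c d) :
    inR a b c d (src e) ∧ inR a b c d (tgt e) := by
  obtain ⟨x, y, _ | _⟩ := e
  · rw [mem_RE_false] at h
    simp only [inR, src_mk, tgt_false]
    omega
  · rw [mem_RE_true] at h
    simp only [inR, src_mk, tgt_true]
    omega

/-- Regions of blocks of one class are disjoint. -/
theorem Lam_disj {D : Dm} {W : ℤ} (hW : 1 ≤ W) {q r : Vtx} (h : cls q = cls r) (hne : q ≠ r) :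
    Disjoint (Lam D W q) (Lam D W r) := by
  have hfar := cls_far h hne
  rw [det_sd_eq] at hfar
  have key : ∀ x y : ℤ, 7 ≤ x - y → y * W + 7 * W ≤ x * W := by
    intro x y hxy
    have : (y + 7) * W ≤ x * W := mul_le_mul_of_nonneg_right (by omega) (by omega)
    have e : (y + 7) * W = y * W + 7 * W := by ring
    omega
  rw [disjoint_left]
  intro e he hr
  unfold Y985.ME.Lam at he hr
  obtain ⟨⟨⟨a1, a2⟩, a3, a4⟩, -⟩ := ends_of_RE he
  obtain ⟨⟨⟨b1, b2⟩, b3, b4⟩, -⟩ := ends_of_RE hr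
  have hor : 7 ≤ q.1 - r.1 ∨ 7 ≤ r.1 - q.1 ∨ 7 ≤ q.2 - r.2 ∨ 7 ≤ r.2 - q.2 := by omega
  rcases hor with h1 | h1 | h1 | h1
  · have := key _ _ h1; omega
  · have := key _ _ h1; omega
  · have := key _ _ h1; omega
  · have := key _ _ h1; omega

theorem Lam_sub (D : Dm) (W : ℤ) (q : Vtx) : Lam D W q ⊆ D.edges := by
  unfold Y985.ME.Lam Dm.edges
  exact RE_subset (le_max_left _ _) (min_le_left _ _) (le_max_left _ _) (min_le_left _ _)

/-- the probability that all blocks of a set are bad -/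
theorem all_bad {D : Dm} {W : ℤ} (hW : 1 ≤ W) {Bd : Vtx → Finset Edg → Prop}
    (hloc : ∀ q F, Bd q F ↔ Bd q (F ∩ Lam D W q)) {η : ℝ} {B : Finset Vtx}
    (hcl : ∀ q ∈ B, ∀ r ∈ B, cls q = cls r) (hpr : ∀ q ∈ B, P D.edges (Bd q) ≤ η) :
    P D.edges (fun F => ∀ q ∈ B, Bd q F) ≤ η ^ B.card := by
  classical
  have h1 : P D.edges (fun F => ∀ q ∈ B, Bd q F) =
      Ex (fun _ => (1/2:ℝ)) D.edges (fun F => ∏ q ∈ B, ind (Bd q F)) := by
    refine Ex_congr fun F _ => ?_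
    by_cases h : ∀ q ∈ B, Bd q F
    · rw [ind_of h, prod_eq_one fun q hq => ind_of (h q hq)]
    · rw [ind_not_of h]
      push Not at h
      obtain ⟨q, hq, hn⟩ := h
      rw [prod_eq_zero hq (ind_not_of hn)]
  rw [h1, TH992.T.Ex_prod_indep B (Lam D W) (fun q _ => Lam_sub D W q)
    (fun q hq r hr hne => Lam_disj hW (hcl q hq r hr) hne)
    (fun q F => ind (Bd q F))
    (fun q _ F _ => ind_congr (hloc q F)), ← prod_const]
  exact prod_le_prod (fun q _ => Ex_nonneg half_ok fun F _ => ind_nonneg _) hpr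

/-- The probability of a fast path. -/
theorem chain_pr {D : Dm} {W : ℤ} (hW : 1 ≤ W) {Bd : Vtx → Finset Edg → Prop}
    (hloc : ∀ q F, Bd q F ↔ Bd q (F ∩ Lam D W q))
    (hbad : ∀ q ∈ Bks D W, P D.edges (Bd q) ≤ (1/36) ^ 98) {k : ℕ} :
    P D.edges (fun F => ∃ b ∈ Bks D W, ∃ Q ∈ AS k b, Q.card = k + 1 ∧ ∃ B ∈ Q.powerset,
      (B ⊆ Bks D W ∧ (∀ q ∈ B, ∀ r ∈ B, cls q = cls r) ∧ k + 1 ≤ 98 * B.card) ∧
      ∀ q ∈ B, Bd q F) ≤ (Bks D W).card * (1/2) ^ (k + 1) := by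
  classical
  have hzero : P D.edges (fun _ => False) = 0 := by
    unfold P Pr
    rw [Ex_congr (g := fun _ => 0) (fun F _ => ind_not_of (fun h => h)), Ex_const]
  have hb : ∀ b ∈ Bks D W, P D.edges (fun F => ∃ Q ∈ AS k b, Q.card = k + 1 ∧ ∃ B ∈ Q.powerset,
      (B ⊆ Bks D W ∧ (∀ q ∈ B, ∀ r ∈ B, cls q = cls r) ∧ k + 1 ≤ 98 * B.card) ∧
      ∀ q ∈ B, Bd q F) ≤ (1/2) ^ (k + 1) := by
    intro b _
    have hQ : ∀ Q ∈ AS k b, P D.edges (fun F => Q.card = k + 1 ∧ ∃ B ∈ Q.powerset,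
        (B ⊆ Bks D W ∧ (∀ q ∈ B, ∀ r ∈ B, cls q = cls r) ∧ k + 1 ≤ 98 * B.card) ∧
        ∀ q ∈ B, Bd q F) ≤ 2 ^ (k + 1) * (1/36) ^ (k + 1) := by
      intro Q hQ
      by_cases hc : Q.card = k + 1
      · refine (Pr_mono half_ok (B := fun F => ∃ B ∈ Q.powerset,
          (B ⊆ Bks D W ∧ (∀ q ∈ B, ∀ r ∈ B, cls q = cls r) ∧ k + 1 ≤ 98 * B.card) ∧
          ∀ q ∈ B, Bd q F) fun F _ h => h.2).trans ?_
        refine (Pr_exists_le half_ok _ _ _).trans ?_
        have hone : ∀ B ∈ Q.powerset, P D.edges (fun F =>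
            (B ⊆ Bks D W ∧ (∀ q ∈ B, ∀ r ∈ B, cls q = cls r) ∧ k + 1 ≤ 98 * B.card) ∧
            ∀ q ∈ B, Bd q F) ≤ (1/36) ^ (k + 1) := by
          intro B hB
          by_cases hcl : B ⊆ Bks D W ∧ (∀ q ∈ B, ∀ r ∈ B, cls q = cls r) ∧ k + 1 ≤ 98 * B.card
          · refine (Pr_mono half_ok (B := fun F => ∀ q ∈ B, Bd q F)
              fun F _ h => h.2).trans ?_
            refine (all_bad hW hloc hcl.2.1 fun q hq => hbad q (hcl.1 hq)).trans ?_
            rw [← pow_mul]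
            exact pow_le_pow_of_le_one (by norm_num) (by norm_num) hcl.2.2
          · refine (Pr_mono half_ok (B := fun _ => False) fun F _ h => hcl h.1).trans ?_
            rw [show Pr (fun _ => (1/2:ℝ)) D.edges (fun _ => False) = 0 from hzero]
            positivity
        refine (sum_le_card_nsmul _ _ _ hone).trans ?_
        rw [card_powerset, hc, nsmul_eq_mul]
        push_cast
        exact le_rfl
      · refine (Pr_mono half_ok (B := fun _ => False) fun F _ h => hc h.1).trans ?_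
        rw [show Pr (fun _ => (1/2:ℝ)) D.edges (fun _ => False) = 0 from hzero]
        positivity
    refine (Pr_exists_le half_ok _ _ _).trans ?_
    refine (sum_le_card_nsmul _ _ _ hQ).trans ?_
    rw [nsmul_eq_mul]
    have h1 : ((AS k b).card : ℝ) ≤ 9 ^ (k + 1) := by
      have := AS_card k b
      have h2 : ((AS k b).card : ℝ) ≤ ((9 ^ k : ℕ) : ℝ) := by exact_mod_cast this
      push_cast at h2
      refine h2.trans ?_
      exact pow_le_pow_right₀ (by norm_num) (by omega)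
    calc ((AS k b).card : ℝ) * (2 ^ (k + 1) * (1/36) ^ (k + 1))
        ≤ 9 ^ (k + 1) * (2 ^ (k + 1) * (1/36) ^ (k + 1)) := by gcongr
      _ = (1/2) ^ (k + 1) := by
          rw [← mul_pow, ← mul_pow]
          norm_num
  refine (Pr_exists_le half_ok _ _ _).trans ?_
  refine (sum_le_card_nsmul _ _ _ hb).trans ?_
  rw [nsmul_eq_mul]

/-- number of blocks -/
theorem card_Bks {D : Dm} (hD : D.Ok) {W : ℤ} (hW : 1 ≤ W) {n : ℝ} (hn : (W : ℝ) ≤ n)
    (h1 : ((D.r - D.l : ℤ) : ℝ) ≤ n) (h2 : (D.h : ℝ) ≤ n) :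
    ((Bks D W).card : ℝ) ≤ 6 * (n / W) ^ 2 := by
  have hl := hD.l_neg
  have hr := hD.r_pos
  have hh := hD.h_pos
  have hWr : (0 : ℝ) < W := by exact_mod_cast (show (0:ℤ) < W by omega)
  have hnW : 1 ≤ n / W := by rwa [le_div_iff₀ hWr, one_mul]
  have e1 : D.l / W ≤ D.r / W := Int.ediv_le_ediv (by omega) (by omega)
  have e2 : 0 ≤ D.h / W := Int.ediv_nonneg (by omega) (by omega)
  have hcard : ((Bks D W).card : ℝ) =
      ((D.r / W - D.l / W + 1 : ℤ) : ℝ) * ((D.h / W + 1 : ℤ) : ℝ) := by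
    unfold Bks
    rw [card_product, Int.card_Icc, Int.card_Icc]
    have f1 : (((D.r / W + 1 - D.l / W).toNat : ℕ) : ℤ) = D.r / W - D.l / W + 1 := by omega
    have f2 : (((D.h / W + 1 - 0).toNat : ℕ) : ℤ) = D.h / W + 1 := by omega
    rw [← f1, ← f2]
    push_cast
    rfl
  have a1 : W * (D.r / W) ≤ D.r := Int.mul_ediv_self_le (by omega)
  have a2 : D.l < W * (D.l / W) + W := Int.lt_mul_ediv_self_add (by omega)
  have a3 : W * (D.h / W) ≤ D.h := Int.mul_ediv_self_le (by omega)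
  have a1' : (W : ℝ) * ((D.r / W : ℤ) : ℝ) ≤ D.r := by exact_mod_cast a1
  have a2' : (D.l : ℝ) < W * ((D.l / W : ℤ) : ℝ) + W := by exact_mod_cast a2
  have a3' : (W : ℝ) * ((D.h / W : ℤ) : ℝ) ≤ D.h := by exact_mod_cast a3
  push_cast at h1
  have g1 : ((D.r / W - D.l / W + 1 : ℤ) : ℝ) ≤ 3 * (n / W) := by
    have : ((D.r / W - D.l / W : ℤ) : ℝ) ≤ n / W + 1 := by
      rw [← sub_le_iff_le_add, le_div_iff₀ hWr]
      push_cast
      nlinarith
    push_cast at this ⊢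
    linarith
  have g2 : ((D.h / W + 1 : ℤ) : ℝ) ≤ 2 * (n / W) := by
    have : ((D.h / W : ℤ) : ℝ) ≤ n / W := by
      rw [le_div_iff₀ hWr]
      nlinarith
    push_cast
    linarith
  have g3 : (0 : ℝ) ≤ ((D.h / W + 1 : ℤ) : ℝ) := by exact_mod_cast (show (0:ℤ) ≤ D.h / W + 1 by omega)
  rw [hcard]
  calc ((D.r / W - D.l / W + 1 : ℤ) : ℝ) * ((D.h / W + 1 : ℤ) : ℝ)
      ≤ (3 * (n / W)) * (2 * (n / W)) := mul_le_mul g1 g2 g3 (by positivity)
    _ = 6 * (n / W) ^ 2 := by ring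

end Pool.Agent.Y884.ME
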