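import Pool.Agent.Y884.ME.Fast

/-!
The lower tail of the duration (S_FAST).
-/

set_option autoImplicit false

namespace Pool.Agent.Y884.ME

open H974 Finset H342P H984P H984N
open Pool.Agent.Y985.ME

/-- **ME-FAST**: the lower tail of the duration of the pieces. -/
theorem fast : S_BLK → S_FAST := by
  intro H κ hκ
  obtain ⟨c0, s0, hc0, hs0, H⟩ := H ((1/36) ^ 98) (by positivity)
  obtain ⟨B, hB⟩ : ∃ B : ℝ, B = max (196 / c0) 1 := ⟨_, rfl⟩
  have hB1 : 1 ≤ B := by rw [hB]; exact le_max_right _ _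
  have hB2 : 196 / c0 ≤ B := by rw [hB]; exact le_max_left _ _
  obtain ⟨A, hA⟩ : ∃ A : ℝ, A = B ^ (4/3 : ℝ) := ⟨_, rfl⟩
  have hA1 : 1 ≤ A := by rw [hA]; exact Real.one_le_rpow hB1 (by norm_num)
  have hA0 : 0 < A := by linarith
  have hA34 : A ^ (3/4 : ℝ) = B := by
    rw [hA, ← Real.rpow_mul (by linarith)]
    norm_num
  have hlog : 0 < Real.log 2 := Real.log_pos (by norm_num)
  obtain ⟨K1, hK1⟩ : ∃ K1 : ℝ, K1 = max (2 * A * s0 / κ) (4 * A) := ⟨_, rfl⟩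
  have hK1a : 2 * A * s0 / κ ≤ K1 := by rw [hK1]; exact le_max_left _ _
  have hK1b : 4 * A ≤ K1 := by rw [hK1]; exact le_max_right _ _
  obtain ⟨a, ha⟩ : ∃ a : ℝ, a = Real.log 2 / (4 * A) := ⟨_, rfl⟩
  have ha0 : 0 < a := by rw [ha]; positivity
  obtain ⟨C, hC⟩ : ∃ C : ℝ, C = Real.exp (a * K1) + s0 + 12 / (a * A) ^ 2 := ⟨_, rfl⟩
  have hE0 : 0 < Real.exp (a * K1) := Real.exp_pos _
  have hK0 : 0 < K1 := by linarith
  have hE1 : 1 ≤ Real.exp (a * K1) := Real.one_le_exp (by positivity)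
  have h12 : 0 < 12 / (a * A) ^ 2 := by positivity
  have hC1 : 1 ≤ C := by rw [hC]; linarith
  have hCs : s0 ≤ C := by rw [hC]; linarith
  have hCE : Real.exp (a * K1) ≤ C := by rw [hC]; linarith
  have hC12 : 12 / (a * A) ^ 2 ≤ C := by rw [hC]; linarith
  refine ⟨a, C, ha0, by linarith, ?_⟩
  intro D n y x hD hx hx1 hCy hyn
  obtain ⟨u, hu⟩ : ∃ u : ℝ, u = x ^ (4/3 : ℝ) := ⟨_, rfl⟩
  have hu0 : 0 < u := by rw [hu]; positivity
  have hu1 : u ≤ 1 := by rw [hu]; exact Real.rpow_le_one hx.le hx1 (by norm_num)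
  have hux : u ^ (3/4 : ℝ) = x := by
    rw [hu, ← Real.rpow_mul hx.le]
    norm_num
  obtain ⟨z, hz⟩ : ∃ z : ℝ, z = x ^ (-(4/3) : ℝ) := ⟨_, rfl⟩
  have hzu : z = u⁻¹ := by rw [hz, hu, Real.rpow_neg hx.le]
  have hzu1 : z * u = 1 := by rw [hzu]; exact inv_mul_cancel₀ hu0.ne'
  have hz0 : 0 < z := by rw [hzu]; positivity
  have hz1 : 1 ≤ z := by rw [hzu]; exact one_le_inv_iff₀.mpr ⟨hu0, hu1⟩
  rw [← hz] at hCy ⊢
  have hy1 : 1 ≤ y := by nlinarith
  have hy0 : 0 < y := by linarith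
  have hn0 : 0 < n := by linarith
  have hny : 1 ≤ n / y := by rwa [le_div_iff₀ hy0, one_mul]
  have hny2 : 1 ≤ (n / y) ^ 2 := one_le_pow₀ hny
  rcases lt_or_ge z K1 with hzs | hzl
  · -- trivial case
    refine (Pr_le_one half_ok _ _).trans ?_
    have h1 : Real.exp (a * K1) * Real.exp (-(a * z)) ≤ C * (n / y) ^ 2 * Real.exp (-(a * z)) := by
      apply mul_le_mul_of_nonneg_right _ (Real.exp_pos _).le
      nlinarith
    refine le_trans ?_ h1
    rw [← Real.exp_add]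
    apply Real.one_le_exp
    nlinarith
  -- main case
  obtain ⟨v, hv⟩ : ∃ v : ℝ, v = u * y := ⟨_, rfl⟩
  have hvC : C ≤ v := by
    have h1 := mul_le_mul_of_nonneg_right hCy hu0.le
    have h2 : C * z * u = C := by rw [mul_assoc, hzu1, mul_one]
    rw [hv]
    linarith
  have hv1 : 1 ≤ v := by linarith
  obtain ⟨T, hT⟩ : ∃ T : ℝ, T = A * v := ⟨_, rfl⟩
  have hTC : C ≤ T := by rw [hT]; nlinarith
  have hT1 : 1 ≤ T := by linarith
  obtain ⟨W, hW⟩ : ∃ W : ℤ, W = ⌈T⌉ := ⟨_, rfl⟩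
  have hTW : T ≤ W := by rw [hW]; exact Int.le_ceil T
  have hWT : (W : ℝ) ≤ 2 * T := by
    have := Int.ceil_lt_add_one T
    rw [← hW] at this
    linarith
  have hW1r : (1 : ℝ) ≤ W := by linarith
  have hW1 : 1 ≤ W := by exact_mod_cast hW1r
  have hW0 : (0 : ℝ) < W := by linarith
  obtain ⟨k, hk⟩ : ∃ k : ℕ, k = ⌊y / W⌋₊ := ⟨_, rfl⟩
  have hk1 : (k : ℝ) ≤ y / W := by rw [hk]; exact Nat.floor_le (by positivity)
  have hk2 : y / W < k + 1 := by rw [hk]; exact Nat.lt_floor_add_one _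
  have hkW : (k : ℝ) * W ≤ y := by rwa [le_div_iff₀ hW0] at hk1
  have hyW : z / (2 * A) ≤ y / W := by
    have h1 : z / (2 * A) = y / (2 * T) := by
      rw [hT, hv, hzu]
      field_simp
    rw [h1]
    exact div_le_div_of_nonneg_left hy0.le hW0 hWT
  have hyW' : y / W ≤ z / A := by
    have h1 : z / A = y / T := by
      rw [hT, hv, hzu]
      field_simp
    rw [h1]
    exact div_le_div_of_nonneg_left hy0.le (by linarith) hTW
  have hk2' : 2 ≤ k := by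
    rw [hk]
    apply Nat.le_floor
    push_cast
    refine le_trans ?_ hyW
    rw [le_div_iff₀ (by positivity)]
    linarith
  have hsW : s0 * W ≤ κ * n := by
    have h1 : 2 * A * s0 ≤ z * κ := by
      have := hK1a.trans hzl
      rwa [div_le_iff₀ hκ] at this
    have h2 : 2 * A * s0 * u ≤ κ := by
      have := mul_le_mul_of_nonneg_right h1 hu0.le
      have h3 : z * κ * u = κ := by
        rw [mul_right_comm, hzu1, one_mul]
      linarith
    calc s0 * W ≤ s0 * (2 * T) := mul_le_mul_of_nonneg_left hWT hs0.le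
      _ = 2 * A * s0 * u * y := by rw [hT, hv]; ring
      _ ≤ κ * y := mul_le_mul_of_nonneg_right h2 hy0.le
      _ ≤ κ * n := mul_le_mul_of_nonneg_left hyn hκ.le
  have hWy : (W : ℝ) ≤ y := by
    have h1 : (2 : ℝ) ≤ k := by exact_mod_cast hk2'
    nlinarith
  obtain ⟨Bd, hloc, hbad, hgood⟩ := H D W hD.ok (by linarith) (hsW.trans hD.l_ge)
    (hsW.trans hD.r_ge) (hsW.trans hD.h_ge)
  obtain ⟨M, hM⟩ : ∃ M : ℕ, M = ⌈c0 * (W : ℝ) ^ (7/4 : ℝ)⌉₊ := ⟨_, rfl⟩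
  have hMge : c0 * (W : ℝ) ^ (7/4 : ℝ) ≤ M := by rw [hM]; exact Nat.le_ceil _
  have hv34 : v ^ (3/4 : ℝ) * y = x * y ^ (7/4 : ℝ) := by
    rw [hv, Real.mul_rpow hu0.le hy0.le, hux, show (7/4 : ℝ) = 3/4 + 1 by norm_num,
      Real.rpow_add hy0, Real.rpow_one]
    ring
  have hxy1 : 1 ≤ x * y ^ (7/4 : ℝ) := by
    rw [← hv34]
    have h1 : 1 ≤ v ^ (3/4 : ℝ) := Real.one_le_rpow hv1 (by norm_num)
    nlinarith
  have hkM : 196 * (x * y ^ (7/4 : ℝ)) < (k + 1) * M := by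
    have h1 : (W : ℝ) ^ (7/4 : ℝ) = W * (W : ℝ) ^ (3/4 : ℝ) := by
      rw [show (7/4 : ℝ) = 1 + 3/4 by norm_num, Real.rpow_add hW0, Real.rpow_one]
    have h2 : B * v ^ (3/4 : ℝ) ≤ (W : ℝ) ^ (3/4 : ℝ) := by
      rw [← hA34, ← Real.mul_rpow hA0.le (by linarith), ← hT]
      exact Real.rpow_le_rpow (by linarith) hTW (by norm_num)
    have h3 : 0 < v ^ (3/4 : ℝ) := by positivity
    have h4 : 196 ≤ c0 * B := by
      rw [div_le_iff₀ hc0] at hB2
      linarith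
    have hMp : (0 : ℝ) < M := lt_of_lt_of_le (by positivity) hMge
    calc 196 * (x * y ^ (7/4 : ℝ)) = 196 * (v ^ (3/4 : ℝ) * y) := by rw [hv34]
      _ ≤ c0 * B * (v ^ (3/4 : ℝ) * y) := mul_le_mul_of_nonneg_right h4 (by positivity)
      _ = c0 * y * (B * v ^ (3/4 : ℝ)) := by ring
      _ ≤ c0 * y * (W : ℝ) ^ (3/4 : ℝ) := mul_le_mul_of_nonneg_left h2 (by positivity)
      _ = y / W * (c0 * (W : ℝ) ^ (7/4 : ℝ)) := by
          rw [h1]
          field_simp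
      _ ≤ y / W * M := mul_le_mul_of_nonneg_left hMge (by positivity)
      _ < (k + 1) * M := mul_lt_mul_of_pos_right hk2 hMp
  -- the event
  have hsub : ∀ F, F ⊆ D.edges → (∃ k l : ℕ, k ≤ l ∧ l ≤ D.len F ∧
      y ≤ ((sd (D.walk F k).1 (D.walk F l).1 : ℤ) : ℝ) ∧
      ((l - k : ℕ) : ℝ) ≤ x * y ^ (7/4 : ℝ)) →
      ∃ b ∈ Bks D W, ∃ Q ∈ AS k b, Q.card = k + 1 ∧ ∃ B ∈ Q.powerset,
      (B ⊆ Bks D W ∧ (∀ q ∈ B, ∀ r ∈ B, cls q = cls r) ∧ k + 1 ≤ 98 * B.card) ∧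
      ∀ q ∈ B, Bd q F := by
    rintro F hF ⟨k0, l0, h0, hl, hd, ht⟩
    refine chain_sub hD.ok hW1 hF (M := M) (fun q hq k l h1 h2 h3 h4 => ?_) hk2' h0 hl ?_ ?_
    · have := hgood F hF q hq k l h1 h2 h3 h4
      rw [hM]
      exact Nat.ceil_le.mpr this
    · have h1 : (((k : ℤ) * W : ℤ) : ℝ) ≤ ((sd (D.walk F k0).1 (D.walk F l0).1 : ℤ) : ℝ) := by
        push_cast
        exact hkW.trans hd
      exact_mod_cast h1
    · have h1 : ((98 * (l0 - k0 + 1) : ℕ) : ℝ) < (((k + 1) * M : ℕ) : ℝ) := by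
        rw [Nat.cast_mul, Nat.cast_mul, Nat.cast_add, Nat.cast_add, Nat.cast_one]
        norm_num
        linarith
      exact_mod_cast h1
  refine (Pr_mono half_ok hsub).trans ?_
  refine (chain_pr hW1 hloc hbad).trans ?_
  have hcard := card_Bks hD.ok hW1 (hWy.trans hyn) hD.w_le hD.h_le
  have hhalf : ((1/2 : ℝ)) ^ (k + 1) ≤ Real.exp (-(2 * (a * z))) := by
    have h3 : ((1/2 : ℝ)) ^ (k + 1) = Real.exp (-(((k + 1 : ℕ) : ℝ) * Real.log 2)) := by
      rw [Real.exp_neg, Real.exp_nat_mul, Real.exp_log (by norm_num), one_div, inv_pow]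
    rw [h3]
    apply Real.exp_le_exp.mpr
    push_cast
    have h4 : 2 * (a * z) = z / (2 * A) * Real.log 2 := by
      rw [ha]
      field_simp
      ring
    have h5 := mul_le_mul_of_nonneg_right (hyW.trans hk2.le) hlog.le
    linarith
  have hquad : (a * z) ^ 2 ≤ 2 * Real.exp (a * z) := by
    have := Real.quadratic_le_exp_of_nonneg (show 0 ≤ a * z by positivity)
    have h0 : 0 < a * z := by positivity
    linarith
  have hsplit : n / W = n / y * (y / W) := by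
    field_simp
  calc ((Bks D W).card : ℝ) * (1/2) ^ (k + 1)
      ≤ (6 * (n / W) ^ 2) * Real.exp (-(2 * (a * z))) :=
        mul_le_mul hcard hhalf (by positivity) (by positivity)
    _ = 6 * (n / y) ^ 2 * (y / W) ^ 2 * Real.exp (-(2 * (a * z))) := by rw [hsplit]; ring
    _ ≤ 6 * (n / y) ^ 2 * (z / A) ^ 2 * Real.exp (-(2 * (a * z))) := by
        gcongr
    _ = 6 / (a * A) ^ 2 * (a * z) ^ 2 * (n / y) ^ 2 * Real.exp (-(2 * (a * z))) := by
        field_simp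
    _ ≤ 6 / (a * A) ^ 2 * (2 * Real.exp (a * z)) * (n / y) ^ 2 * Real.exp (-(2 * (a * z))) := by
        gcongr
    _ = 12 / (a * A) ^ 2 * (n / y) ^ 2 * (Real.exp (a * z) * Real.exp (-(2 * (a * z)))) := by ring
    _ = 12 / (a * A) ^ 2 * (n / y) ^ 2 * Real.exp (-(a * z)) := by
        rw [← Real.exp_add]
        ring_nf
    _ ≤ C * (n / y) ^ 2 * Real.exp (-(a * z)) := by
        gcongr

end Pool.Agent.Y884.ME
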